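import Mathlib

/-!
# Berger spheres: metric, Levi-Civita connections, energy of unit vector fields
-/

set_option autoImplicit false

open scoped RealInnerProductSpace ContDiff
open MeasureTheory

namespace Pool.Agent.R731.BE

/-- `R⁴`, identified with the quaternions by `(p₀, p₁, p₂, p₃) = p₀ + p₁ i + p₂ j + p₃ k`. -/
abbrev E4 : Type := EuclideanSpace ℝ (Fin 4)

/-- `J₀ N`, the Hopf field `H`: left multiplication of `p` by `i`. -/
noncomputable def J0 (p : E4) : E4 := !₂[-p 1, p 0, -p 3, p 2]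

/-- `J₁ N = E₁`: left multiplication of `p` by `j`. -/
noncomputable def J1 (p : E4) : E4 := !₂[-p 2, p 3, p 0, -p 1]

/-- `J₂ N = E₂`: left multiplication of `p` by `k`. -/
noncomputable def J2 (p : E4) : E4 := !₂[-p 3, -p 2, p 1, p 0]

/-- The Berger metric `g_μ` at the point `p` of the unit sphere: `g_μ(H,H) = μ`, `g_μ = g` on
`H^⊥` and `g_μ(H, H^⊥) = 0`, i.e. `g_μ(u,v) = ⟨u,v⟩ + (μ-1) ⟨u,H⟩⟨v,H⟩`. -/
noncomputable def gm (μ : ℝ) (p u v : E4) : ℝ := ⟪u, v⟫ + (μ - 1) * (⟪u, J0 p⟫ * ⟪v, J0 p⟫)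

/-- Smooth vector fields on the sphere `S³`, given by smooth maps `R⁴ → R⁴` which are tangent to
the sphere at the points of the sphere. -/
def IsField (V : E4 → E4) : Prop :=
  ContDiff ℝ ∞ V ∧ ∀ p : E4, ‖p‖ = 1 → ⟪V p, p⟫ = 0

/-- `D V p u = ∇_u V (p)` is the Levi-Civita connection of `g_μ` on `S³`: it is tangent to the
sphere, linear in the direction `u`, additive in the field, satisfies the Leibniz rule, is
torsion-free and compatible with the metric `g_μ`. -/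
structure IsLeviCivita (μ : ℝ) (D : (E4 → E4) → E4 → E4 → E4) : Prop where
  tangent : ∀ V, IsField V → ∀ p u : E4, ‖p‖ = 1 → ⟪u, p⟫ = 0 → ⟪D V p u, p⟫ = 0
  dir_add : ∀ V, IsField V → ∀ p u v : E4, ‖p‖ = 1 → ⟪u, p⟫ = 0 → ⟪v, p⟫ = 0 →
    D V p (u + v) = D V p u + D V p v
  dir_smul : ∀ V, IsField V → ∀ (p u : E4) (c : ℝ), ‖p‖ = 1 → ⟪u, p⟫ = 0 →
    D V p (c • u) = c • D V p u
  field_add : ∀ V W, IsField V → IsField W → ∀ p u : E4, ‖p‖ = 1 → ⟪u, p⟫ = 0 →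
    D (fun x => V x + W x) p u = D V p u + D W p u
  leibniz : ∀ (f : E4 → ℝ) (V : E4 → E4), ContDiff ℝ ∞ f → IsField V → ∀ p u : E4, ‖p‖ = 1 →
    ⟪u, p⟫ = 0 → D (fun x => f x • V x) p u = f p • D V p u + (fderiv ℝ f p u) • V p
  torsion_free : ∀ V W, IsField V → IsField W → ∀ p : E4, ‖p‖ = 1 →
    D W p (V p) - D V p (W p) = fderiv ℝ W p (V p) - fderiv ℝ V p (W p)
  metric : ∀ V W, IsField V → IsField W → ∀ p u : E4, ‖p‖ = 1 → ⟪u, p⟫ = 0 →
    fderiv ℝ (fun x => gm μ x (V x) (W x)) p u = gm μ p (D V p u) (W p) + gm μ p (V p) (D W p u)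

/-- A unit vector field on `(S³, g_μ)`. -/
def IsUnitField (μ : ℝ) (V : E4 → E4) : Prop :=
  IsField V ∧ ∀ p : E4, ‖p‖ = 1 → gm μ p (V p) (V p) = 1

/-- `‖∇V‖²` at the point `p`, computed in the `g_μ`-orthonormal frame `H/√μ, E₁, E₂`. -/
noncomputable def nablaSq (μ : ℝ) (D : (E4 → E4) → E4 → E4 → E4) (V : E4 → E4) (p : E4) : ℝ :=
  gm μ p (D V p ((√μ)⁻¹ • J0 p)) (D V p ((√μ)⁻¹ • J0 p)) +
    gm μ p (D V p (J1 p)) (D V p (J1 p)) + gm μ p (D V p (J2 p)) (D V p (J2 p))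

/-- The Riemannian measure of `g_μ` on `S³`: `√μ` times the surface measure of the round
sphere. -/
noncomputable def volMeasure (μ : ℝ) : Measure (Metric.sphere (0 : E4) 1) :=
  ENNReal.ofReal (√μ) • (volume : Measure E4).toSphere

/-- The volume of `(S³, g_μ)`. -/
noncomputable def vol (μ : ℝ) : ℝ := (volMeasure μ).real Set.univ

/-- The energy `E(V) = (3/2) vol(S³, g_μ) + (1/2) ∫ ‖∇V‖² dv_μ`. -/
noncomputable def energy (μ : ℝ) (D : (E4 → E4) → E4 → E4 → E4) (V : E4 → E4) : ℝ :=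
  3 / 2 * vol μ + 1 / 2 * ∫ p : Metric.sphere (0 : E4) 1, nablaSq μ D V p ∂(volMeasure μ)

end Pool.Agent.R731.BE
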