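import Pool.Agent.R731.BE.Unique

set_option autoImplicit false
set_option linter.unusedSimpArgs false
set_option linter.unusedSectionVars false

open scoped RealInnerProductSpace ContDiff
open MeasureTheory

namespace Pool.Agent.R731.BE

theorem tp_self (p : E4) (hp : ‖p‖ = 1) : tp p p = 0 := by
  unfold tp; rw [inner_self4 p hp, one_smul, sub_self]

theorem J0_J0 (p : E4) : J0 (J0 p) = (-1 : ℝ) • p := by
  ext i; fin_cases i <;> simp [J0]
theorem J1_J1 (p : E4) : J1 (J1 p) = (-1 : ℝ) • p := by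
  ext i; fin_cases i <;> simp [J1]
theorem J2_J2 (p : E4) : J2 (J2 p) = (-1 : ℝ) • p := by
  ext i; fin_cases i <;> simp [J2]
theorem J0_J1 (p : E4) : J0 (J1 p) = J2 p := by
  ext i; fin_cases i <;> simp [J0, J1, J2]
theorem J1_J0 (p : E4) : J1 (J0 p) = (-1 : ℝ) • J2 p := by
  ext i; fin_cases i <;> simp [J0, J1, J2]
theorem J1_J2 (p : E4) : J1 (J2 p) = J0 p := by
  ext i; fin_cases i <;> simp [J0, J1, J2]
theorem J2_J1 (p : E4) : J2 (J1 p) = (-1 : ℝ) • J0 p := by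
  ext i; fin_cases i <;> simp [J0, J1, J2]
theorem J2_J0 (p : E4) : J2 (J0 p) = J1 p := by
  ext i; fin_cases i <;> simp [J0, J1, J2]
theorem J0_J2 (p : E4) : J0 (J2 p) = (-1 : ℝ) • J1 p := by
  ext i; fin_cases i <;> simp [J0, J1, J2]

theorem inner_00 (p : E4) (hp : ‖p‖ = 1) : ⟪J0 p, J0 p⟫ = 1 := by
  rw [inner_J0_J0, inner_self4 p hp]
theorem inner_11 (p : E4) (hp : ‖p‖ = 1) : ⟪J1 p, J1 p⟫ = 1 := by
  rw [inner_J1_J1, inner_self4 p hp]
theorem inner_22 (p : E4) (hp : ‖p‖ = 1) : ⟪J2 p, J2 p⟫ = 1 := by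
  rw [inner_J2_J2, inner_self4 p hp]
theorem inner_10 (p : E4) : ⟪J1 p, J0 p⟫ = 0 := by rw [real_inner_comm, inner_J0_J1]
theorem inner_20 (p : E4) : ⟪J2 p, J0 p⟫ = 0 := by rw [real_inner_comm, inner_J0_J2]
theorem inner_21 (p : E4) : ⟪J2 p, J1 p⟫ = 0 := by rw [real_inner_comm, inner_J1_J2]

section table
variable (μ : ℝ) (p : E4) (hp : ‖p‖ = 1)
include hp

theorem tp0 : tp p (J0 p) = J0 p := tp_of_tangent _ _ (inner_J0_self p)
theorem tp1 : tp p (J1 p) = J1 p := tp_of_tangent _ _ (inner_J1_self p)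
theorem tp2 : tp p (J2 p) = J2 p := tp_of_tangent _ _ (inner_J2_self p)

theorem n00 : nabla μ J0 p (J0 p) = 0 := by
  unfold nabla
  simp only [fderiv_J0, J0_J0, tp_add, tp_smul, tp_self p hp, smul_zero, add_zero]
theorem n01 : nabla μ J1 p (J0 p) = (μ - 2) • J2 p := by
  unfold nabla
  simp only [fderiv_J1, J0_J0, J0_J1, J1_J0, tp_add, tp_smul, tp_self p hp, tp2 p hp,
    inner_00 p hp, inner_10]
  module
theorem n02 : nabla μ J2 p (J0 p) = (2 - μ) • J1 p := by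
  unfold nabla
  simp only [fderiv_J2, J0_J0, J0_J2, J2_J0, tp_add, tp_smul, tp_self p hp, tp1 p hp,
    inner_00 p hp, inner_20]
  module
theorem n10 : nabla μ J0 p (J1 p) = μ • J2 p := by
  unfold nabla
  simp only [fderiv_J0, J0_J0, J0_J1, J1_J0, tp_add, tp_smul, tp_self p hp, tp2 p hp,
    inner_00 p hp, inner_10]
  module
theorem n11 : nabla μ J1 p (J1 p) = 0 := by
  unfold nabla
  simp only [fderiv_J1, J1_J1, J0_J1, J1_J0, tp_add, tp_smul, tp_self p hp, tp2 p hp,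
    inner_00 p hp, inner_10]
  module
theorem n12 : nabla μ J2 p (J1 p) = (-1 : ℝ) • J0 p := by
  unfold nabla
  simp only [fderiv_J2, J2_J1, J0_J1, J0_J2, tp_add, tp_smul, tp_self p hp, tp0 p hp, tp1 p hp,
    tp2 p hp, inner_00 p hp, inner_10, inner_20]
  module
theorem n20 : nabla μ J0 p (J2 p) = (-μ) • J1 p := by
  unfold nabla
  simp only [fderiv_J0, J0_J0, J0_J2, tp_add, tp_smul, tp_self p hp, tp1 p hp,
    inner_00 p hp, inner_20]
  module
theorem n21 : nabla μ J1 p (J2 p) = J0 p := by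
  unfold nabla
  simp only [fderiv_J1, J1_J2, J0_J1, J0_J2, tp_add, tp_smul, tp_self p hp, tp0 p hp, tp1 p hp,
    tp2 p hp, inner_00 p hp, inner_10, inner_20]
  module
theorem n22 : nabla μ J2 p (J2 p) = 0 := by
  unfold nabla
  simp only [fderiv_J2, J2_J2, J0_J2, tp_add, tp_smul, tp_self p hp, tp1 p hp,
    inner_00 p hp, inner_20]
  module

/-- The metric on combinations of the frame. -/
theorem gm_frame (x y z : ℝ) :
    gm μ p (x • J0 p + y • J1 p + z • J2 p) (x • J0 p + y • J1 p + z • J2 p) =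
      μ * x ^ 2 + y ^ 2 + z ^ 2 := by
  unfold gm
  simp only [inner_add_left, inner_add_right, real_inner_smul_left, real_inner_smul_right,
    inner_00 p hp, inner_11 p hp, inner_22 p hp, inner_10, inner_20, inner_21, inner_J0_J1,
    inner_J0_J2, inner_J1_J2]
  ring

end table

/-- The covariant derivative of a field given in the frame. -/
theorem nabla_frame (μ : ℝ) (f g h : E4 → ℝ) (hf : ContDiff ℝ ∞ f) (hg : ContDiff ℝ ∞ g)
    (hh : ContDiff ℝ ∞ h) (p u : E4) (hp : ‖p‖ = 1) (hu : ⟪u, p⟫ = 0) :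
    nabla μ (fun x => (f x • J0 x + g x • J1 x) + h x • J2 x) p u =
      ((f p • nabla μ J0 p u + (fderiv ℝ f p u) • J0 p) +
        (g p • nabla μ J1 p u + (fderiv ℝ g p u) • J1 p)) +
        (h p • nabla μ J2 p u + (fderiv ℝ h p u) • J2 p) := by
  have hL := isLeviCivita_nabla μ
  have h0 := isField_J0.smul hf
  have h1 := isField_J1.smul hg
  have h2 := isField_J2.smul hh
  rw [hL.field_add _ _ (h0.add h1) h2 p u hp hu, hL.field_add _ _ h0 h1 p u hp hu,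
    hL.leibniz f J0 hf isField_J0 p u hp hu, hL.leibniz g J1 hg isField_J1 p u hp hu,
    hL.leibniz h J2 hh isField_J2 p u hp hu]

/-- `nablaSq` of a field given in the frame, for any Levi-Civita connection. -/
theorem nablaSq_frame (μ : ℝ) (hμ : 1 < μ) (D : (E4 → E4) → E4 → E4 → E4)
    (hD : IsLeviCivita μ D) (f g h : E4 → ℝ) (hf : ContDiff ℝ ∞ f) (hg : ContDiff ℝ ∞ g)
    (hh : ContDiff ℝ ∞ h) (p : E4) (hp : ‖p‖ = 1) :
    nablaSq μ D (fun x => (f x • J0 x + g x • J1 x) + h x • J2 x) p =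
      μ⁻¹ * (μ * (fderiv ℝ f p (J0 p)) ^ 2 + (fderiv ℝ g p (J0 p) + (2 - μ) * h p) ^ 2 +
        (fderiv ℝ h p (J0 p) + (μ - 2) * g p) ^ 2) +
      (μ * (fderiv ℝ f p (J1 p) - h p) ^ 2 + (fderiv ℝ g p (J1 p)) ^ 2 +
        (fderiv ℝ h p (J1 p) + μ * f p) ^ 2) +
      (μ * (fderiv ℝ f p (J2 p) + g p) ^ 2 + (fderiv ℝ g p (J2 p) - μ * f p) ^ 2 +
        (fderiv ℝ h p (J2 p)) ^ 2) := by
  have hV : IsField (fun x => (f x • J0 x + g x • J1 x) + h x • J2 x) :=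
    ((isField_J0.smul hf).add (isField_J1.smul hg)).add (isField_J2.smul hh)
  set V : E4 → E4 := fun x => (f x • J0 x + g x • J1 x) + h x • J2 x with hVdef
  have hDn : ∀ u, ⟪u, p⟫ = 0 → D V p u = nabla μ V p u := fun u hu =>
    lc_unique μ hμ D (nabla μ) hD (isLeviCivita_nabla μ) V hV p u hp hu
  have e0 : D V p (J0 p) = (fderiv ℝ f p (J0 p)) • J0 p +
      (fderiv ℝ g p (J0 p) + (2 - μ) * h p) • J1 p +
      (fderiv ℝ h p (J0 p) + (μ - 2) * g p) • J2 p := by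
    rw [hDn _ (inner_J0_self p), hVdef, nabla_frame μ f g h hf hg hh p _ hp (inner_J0_self p),
      n00 μ p hp, n01 μ p hp, n02 μ p hp]
    module
  have e1 : D V p (J1 p) = (fderiv ℝ f p (J1 p) - h p) • J0 p +
      (fderiv ℝ g p (J1 p)) • J1 p + (fderiv ℝ h p (J1 p) + μ * f p) • J2 p := by
    rw [hDn _ (inner_J1_self p), hVdef, nabla_frame μ f g h hf hg hh p _ hp (inner_J1_self p),
      n10 μ p hp, n11 μ p hp, n12 μ p hp]
    module
  have e2 : D V p (J2 p) = (fderiv ℝ f p (J2 p) + g p) • J0 p +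
      (fderiv ℝ g p (J2 p) - μ * f p) • J1 p + (fderiv ℝ h p (J2 p)) • J2 p := by
    rw [hDn _ (inner_J2_self p), hVdef, nabla_frame μ f g h hf hg hh p _ hp (inner_J2_self p),
      n20 μ p hp, n21 μ p hp, n22 μ p hp]
    module
  unfold nablaSq
  rw [hD.dir_smul V hV p (J0 p) _ hp (inner_J0_self p), gm_smul_left, gm_smul_right, e0, e1, e2,
    gm_frame μ p hp, gm_frame μ p hp, gm_frame μ p hp]
  have hs : (√μ)⁻¹ * (√μ)⁻¹ = μ⁻¹ := by
    rw [← mul_inv, Real.mul_self_sqrt (by linarith)]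
  rw [← mul_assoc, hs]

/-- Right multiplication by `i`. -/
noncomputable def R (p : E4) : E4 := !₂[-p 1, p 0, p 3, -p 2]

theorem R_add (u v : E4) : R (u + v) = R u + R v := by
  ext i; fin_cases i <;> simp [R] <;> ring
theorem R_smul (c : ℝ) (u : E4) : R (c • u) = c • R u := by
  ext i; fin_cases i <;> simp [R]
/-- `R` as a continuous linear map. -/
noncomputable def RL : E4 →L[ℝ] E4 :=
  LinearMap.toContinuousLinearMap { toFun := R, map_add' := R_add, map_smul' := R_smul }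

/-- The three components of `x i x⁻¹`. -/
noncomputable def n0 (x : E4) : ℝ := ⟪R x, J0 x⟫
noncomputable def n1 (x : E4) : ℝ := ⟪R x, J1 x⟫
noncomputable def n2 (x : E4) : ℝ := ⟪R x, J2 x⟫

theorem contDiff_n0 : ContDiff ℝ ∞ n0 := RL.contDiff.inner ℝ J0L.contDiff
theorem contDiff_n1 : ContDiff ℝ ∞ n1 := RL.contDiff.inner ℝ J1L.contDiff
theorem contDiff_n2 : ContDiff ℝ ∞ n2 := RL.contDiff.inner ℝ J2L.contDiff

theorem fderiv_n0 (p u : E4) : fderiv ℝ n0 p u = ⟪R p, J0 u⟫ + ⟪R u, J0 p⟫ := by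
  have h : HasFDerivAt n0 _ p := (RL.hasFDerivAt).inner ℝ (J0L.hasFDerivAt)
  rw [h.fderiv]; rfl
theorem fderiv_n1 (p u : E4) : fderiv ℝ n1 p u = ⟪R p, J1 u⟫ + ⟪R u, J1 p⟫ := by
  have h : HasFDerivAt n1 _ p := (RL.hasFDerivAt).inner ℝ (J1L.hasFDerivAt)
  rw [h.fderiv]; rfl
theorem fderiv_n2 (p u : E4) : fderiv ℝ n2 p u = ⟪R p, J2 u⟫ + ⟪R u, J2 p⟫ := by
  have h : HasFDerivAt n2 _ p := (RL.hasFDerivAt).inner ℝ (J2L.hasFDerivAt)
  rw [h.fderiv]; rfl

section dn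
variable (p : E4)
theorem d00 : fderiv ℝ n0 p (J0 p) = 0 := by
  rw [fderiv_n0, inner4, inner4]; simp [R, J0]; ring
theorem d01 : fderiv ℝ n0 p (J1 p) = 2 * n2 p := by
  rw [fderiv_n0, inner4, inner4, n2, inner4]; simp [R, J0, J1, J2]; ring
theorem d02 : fderiv ℝ n0 p (J2 p) = -2 * n1 p := by
  rw [fderiv_n0, inner4, inner4, n1, inner4]; simp [R, J0, J1, J2]; ring
theorem d10 : fderiv ℝ n1 p (J0 p) = -2 * n2 p := by
  rw [fderiv_n1, inner4, inner4, n2, inner4]; simp [R, J0, J1, J2]; ring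
theorem d11 : fderiv ℝ n1 p (J1 p) = 0 := by
  rw [fderiv_n1, inner4, inner4]; simp [R, J1]; ring
theorem d12 : fderiv ℝ n1 p (J2 p) = 2 * n0 p := by
  rw [fderiv_n1, inner4, inner4, n0, inner4]; simp [R, J0, J1, J2]; ring
theorem d20 : fderiv ℝ n2 p (J0 p) = 2 * n1 p := by
  rw [fderiv_n2, inner4, inner4, n1, inner4]; simp [R, J0, J1, J2]; ring
theorem d21 : fderiv ℝ n2 p (J1 p) = -2 * n0 p := by
  rw [fderiv_n2, inner4, inner4, n0, inner4]; simp [R, J0, J1, J2]; ring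
theorem d22 : fderiv ℝ n2 p (J2 p) = 0 := by
  rw [fderiv_n2, inner4, inner4]; simp [R, J2]; ring

theorem n_sq (hp : ‖p‖ = 1) : n0 p ^ 2 + n1 p ^ 2 + n2 p ^ 2 = 1 := by
  have h : n0 p ^ 2 + n1 p ^ 2 + n2 p ^ 2 = (p 0 ^ 2 + p 1 ^ 2 + p 2 ^ 2 + p 3 ^ 2) ^ 2 := by
    rw [n0, n1, n2, inner4, inner4, inner4]; simp [R, J0, J1, J2]; ring
  rw [h, normsq4 p hp]; norm_num
end dn

/-- The competitor. -/
noncomputable def Vμ (μ : ℝ) (x : E4) : E4 :=
  (((√μ)⁻¹ * n0 x) • J0 x + n1 x • J1 x) + n2 x • J2 x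

theorem isUnitField_Vμ (μ : ℝ) (hμ : 1 < μ) : IsUnitField μ (Vμ μ) := by
  refine ⟨((isField_J0.smul (contDiff_const.mul contDiff_n0)).add
    (isField_J1.smul contDiff_n1)).add (isField_J2.smul contDiff_n2), fun p hp => ?_⟩
  unfold Vμ
  rw [gm_frame μ p hp, ← n_sq p hp]
  have hs : μ * ((√μ)⁻¹ * (√μ)⁻¹) = 1 := by
    rw [← mul_inv, Real.mul_self_sqrt (by linarith), mul_inv_cancel₀ (by linarith)]
  linear_combination (n0 p ^ 2) * hs

theorem nablaSq_Vμ (μ : ℝ) (hμ : 1 < μ) (D : (E4 → E4) → E4 → E4 → E4)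
    (hD : IsLeviCivita μ D) (p : E4) (hp : ‖p‖ = 1) :
    nablaSq μ D (Vμ μ) p = μ * (1 - n0 p ^ 2) + (√μ - 2) ^ 2 * (1 + n0 p ^ 2) := by
  have h := nablaSq_frame μ hμ D hD (fun x => (√μ)⁻¹ * n0 x) n1 n2
    (contDiff_const.mul contDiff_n0) contDiff_n1 contDiff_n2 p hp
  have hfd : ∀ u, fderiv ℝ (fun x => (√μ)⁻¹ * n0 x) p u = (√μ)⁻¹ * fderiv ℝ n0 p u := by
    intro u
    rw [fderiv_const_mul (contDiff_n0.differentiable (by simp) p)]
    rfl
  rw [hfd, hfd, hfd, d00, d01, d02, d10, d11, d12, d20, d21, d22] at h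
  refine h.trans ?_
  have h1 := n_sq p hp
  obtain ⟨s, hs0, hs⟩ : ∃ s : ℝ, 0 < s ∧ μ = s ^ 2 :=
    ⟨√μ, Real.sqrt_pos.2 (by linarith), (Real.sq_sqrt (by linarith)).symm⟩
  subst hs
  rw [Real.sqrt_sq hs0.le]
  have h2 : n2 p ^ 2 = 1 - n0 p ^ 2 - n1 p ^ 2 := by linarith
  field_simp
  ring_nf
  simp only [h2]
  ring

theorem nablaSq_X (μ : ℝ) (hμ : 1 < μ) (D : (E4 → E4) → E4 → E4 → E4)
    (hD : IsLeviCivita μ D) (a b : ℝ) (hab : a ^ 2 + b ^ 2 = 1) (p : E4) (hp : ‖p‖ = 1) :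
    nablaSq μ D (fun x => a • J1 x + b • J2 x) p = 2 * μ - 4 + 4 / μ := by
  have h := nablaSq_frame μ hμ D hD (fun _ => 0) (fun _ => a) (fun _ => b)
    contDiff_const contDiff_const contDiff_const p hp
  have e : (fun x : E4 => ((0 : ℝ) • J0 x + a • J1 x) + b • J2 x) = fun x => a • J1 x + b • J2 x := by
    funext x; rw [zero_smul, zero_add]
  rw [e] at h
  rw [h]
  have hd : ∀ c : ℝ, fderiv ℝ (fun _ : E4 => c) p = 0 := fun c => by
    rw [fderiv_fun_const]; rfl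
  simp only [hd, zero_apply]
  have hb : b ^ 2 = 1 - a ^ 2 := by linarith
  have : μ ≠ 0 := by linarith
  field_simp
  ring_nf
  simp only [hb]
  ring

end Pool.Agent.R731.BE
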