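import Pool.Agent.R731.BE.Defs

set_option autoImplicit false

open scoped RealInnerProductSpace ContDiff
open MeasureTheory

namespace Pool.Agent.R731.BE

theorem inner4 (u v : E4) : ⟪u, v⟫ = u 0 * v 0 + u 1 * v 1 + u 2 * v 2 + u 3 * v 3 := by
  rw [PiLp.inner_apply, Fin.sum_univ_four]
  simp [mul_comm]

theorem inner_self4 (p : E4) (hp : ‖p‖ = 1) : ⟪p, p⟫ = 1 := by
  rw [real_inner_self_eq_norm_sq, hp]; norm_num

theorem normsq4 (p : E4) (hp : ‖p‖ = 1) : p 0 ^ 2 + p 1 ^ 2 + p 2 ^ 2 + p 3 ^ 2 = 1 := by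
  have := inner_self4 p hp
  rw [inner4] at this
  nlinarith

theorem J0_add (u v : E4) : J0 (u + v) = J0 u + J0 v := by
  ext i; fin_cases i <;> simp [J0] <;> ring
theorem J1_add (u v : E4) : J1 (u + v) = J1 u + J1 v := by
  ext i; fin_cases i <;> simp [J1] <;> ring
theorem J2_add (u v : E4) : J2 (u + v) = J2 u + J2 v := by
  ext i; fin_cases i <;> simp [J2] <;> ring
theorem J0_smul (c : ℝ) (u : E4) : J0 (c • u) = c • J0 u := by
  ext i; fin_cases i <;> simp [J0]
theorem J1_smul (c : ℝ) (u : E4) : J1 (c • u) = c • J1 u := by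
  ext i; fin_cases i <;> simp [J1]
theorem J2_smul (c : ℝ) (u : E4) : J2 (c • u) = c • J2 u := by
  ext i; fin_cases i <;> simp [J2]

/-- `J0` as a continuous linear map. -/
noncomputable def J0L : E4 →L[ℝ] E4 :=
  LinearMap.toContinuousLinearMap { toFun := J0, map_add' := J0_add, map_smul' := J0_smul }
/-- `J1` as a continuous linear map. -/
noncomputable def J1L : E4 →L[ℝ] E4 :=
  LinearMap.toContinuousLinearMap { toFun := J1, map_add' := J1_add, map_smul' := J1_smul }
/-- `J2` as a continuous linear map. -/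
noncomputable def J2L : E4 →L[ℝ] E4 :=
  LinearMap.toContinuousLinearMap { toFun := J2, map_add' := J2_add, map_smul' := J2_smul }

theorem fderiv_J0 (p u : E4) : fderiv ℝ J0 p u = J0 u := by
  have : (J0 : E4 → E4) = ⇑J0L := rfl
  rw [this, J0L.fderiv]
theorem fderiv_J1 (p u : E4) : fderiv ℝ J1 p u = J1 u := by
  have : (J1 : E4 → E4) = ⇑J1L := rfl
  rw [this, J1L.fderiv]
theorem fderiv_J2 (p u : E4) : fderiv ℝ J2 p u = J2 u := by
  have : (J2 : E4 → E4) = ⇑J2L := rfl
  rw [this, J2L.fderiv]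

theorem contDiff_J0 : ContDiff ℝ ∞ J0 := J0L.contDiff
theorem contDiff_J1 : ContDiff ℝ ∞ J1 := J1L.contDiff
theorem contDiff_J2 : ContDiff ℝ ∞ J2 := J2L.contDiff

theorem inner_J0_self (u : E4) : ⟪J0 u, u⟫ = 0 := by
  rw [inner4]; simp [J0]; ring
theorem inner_J1_self (u : E4) : ⟪J1 u, u⟫ = 0 := by
  rw [inner4]; simp [J1]; ring
theorem inner_J2_self (u : E4) : ⟪J2 u, u⟫ = 0 := by
  rw [inner4]; simp [J2]; ring
theorem inner_J0_J0 (u v : E4) : ⟪J0 u, J0 v⟫ = ⟪u, v⟫ := by
  rw [inner4, inner4]; simp [J0]; ring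
theorem inner_J1_J1 (u v : E4) : ⟪J1 u, J1 v⟫ = ⟪u, v⟫ := by
  rw [inner4, inner4]; simp [J1]; ring
theorem inner_J2_J2 (u v : E4) : ⟪J2 u, J2 v⟫ = ⟪u, v⟫ := by
  rw [inner4, inner4]; simp [J2]; ring
theorem inner_J0_swap (u v : E4) : ⟪J0 u, v⟫ = - ⟪u, J0 v⟫ := by
  rw [inner4, inner4]; simp [J0]; ring
theorem inner_J0_J1 (u : E4) : ⟪J0 u, J1 u⟫ = 0 := by
  rw [inner4]; simp [J0, J1]; ring
theorem inner_J0_J2 (u : E4) : ⟪J0 u, J2 u⟫ = 0 := by
  rw [inner4]; simp [J0, J2]; ring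
theorem inner_J1_J2 (u : E4) : ⟪J1 u, J2 u⟫ = 0 := by
  rw [inner4]; simp [J1, J2]; ring

theorem isField_J0 : IsField J0 := ⟨contDiff_J0, fun p _ => inner_J0_self p⟩
theorem isField_J1 : IsField J1 := ⟨contDiff_J1, fun p _ => inner_J1_self p⟩
theorem isField_J2 : IsField J2 := ⟨contDiff_J2, fun p _ => inner_J2_self p⟩

theorem IsField.add {V W : E4 → E4} (hV : IsField V) (hW : IsField W) :
    IsField (fun x => V x + W x) :=
  ⟨hV.1.add hW.1, fun p hp => by
    simp only [inner_add_left, hV.2 p hp, hW.2 p hp, add_zero]⟩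

theorem IsField.smul {f : E4 → ℝ} {V : E4 → E4} (hf : ContDiff ℝ ∞ f) (hV : IsField V) :
    IsField (fun x => f x • V x) :=
  ⟨hf.smul hV.1, fun p hp => by
    simp only [real_inner_smul_left, hV.2 p hp, mul_zero]⟩

theorem IsField.diff {V : E4 → E4} (hV : IsField V) (p : E4) : DifferentiableAt ℝ V p :=
  (hV.1.differentiable (by simp)) p

/-- The derivative in a tangent direction of a function vanishing on the sphere. -/
theorem fderiv_tangent_zero (g : E4 → ℝ) (p u : E4) (hg : DifferentiableAt ℝ g p)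
    (hp : ‖p‖ = 1) (hu : ⟪u, p⟫ = 0) (h0 : ∀ x, ‖x‖ = 1 → g x = 0) : fderiv ℝ g p u = 0 := by
  set c : ℝ := ‖u‖ ^ 2 with hc
  have hc0 : 0 ≤ c := by positivity
  let γ : ℝ → E4 := fun t => (√(1 + t ^ 2 * c))⁻¹ • (p + t • u)
  have hpos : ∀ t : ℝ, 0 < 1 + t ^ 2 * c := fun t => by positivity
  have hnorm : ∀ t, ‖γ t‖ = 1 := by
    intro t
    have h1 : ‖p + t • u‖ ^ 2 = 1 + t ^ 2 * c := by
      rw [← real_inner_self_eq_norm_sq, inner_add_left, inner_add_right, inner_add_right,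
        real_inner_smul_left, real_inner_smul_right, real_inner_smul_left, real_inner_smul_right,
        real_inner_comm u p, hu, real_inner_self_eq_norm_sq, real_inner_self_eq_norm_sq, hp, hc]
      ring
    have h2 : ‖p + t • u‖ = √(1 + t ^ 2 * c) := by
      rw [← h1, Real.sqrt_sq (norm_nonneg _)]
    change ‖(√(1 + t ^ 2 * c))⁻¹ • (p + t • u)‖ = 1
    rw [norm_smul, h2, norm_inv, Real.norm_of_nonneg (Real.sqrt_nonneg _),
      inv_mul_cancel₀ (Real.sqrt_pos.2 (hpos t)).ne']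
  have hd1 : HasDerivAt (fun t : ℝ => 1 + t ^ 2 * c) 0 0 := by
    have := ((hasDerivAt_pow 2 (0 : ℝ)).mul_const c).const_add 1
    simpa using this
  have hd2 : HasDerivAt (fun t : ℝ => √(1 + t ^ 2 * c)) 0 0 := by
    have := hd1.sqrt (hpos 0).ne'
    simpa using this
  have hd3 : HasDerivAt (fun t : ℝ => (√(1 + t ^ 2 * c))⁻¹) 0 0 := by
    have := hd2.fun_inv (Real.sqrt_pos.2 (hpos 0)).ne'
    simpa using this
  have hd4 : HasDerivAt (fun t : ℝ => p + t • u) u 0 := by
    have := ((hasDerivAt_id (0 : ℝ)).smul_const u).const_add p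
    simpa using this
  have hγ : HasDerivAt γ u 0 := by
    have h := hd3.fun_smul hd4
    have e : (√(1 + (0 : ℝ) ^ 2 * c))⁻¹ • u + (0 : ℝ) • (p + (0 : ℝ) • u) = u := by simp
    rw [e] at h
    exact h
  have hγ0 : γ 0 = p := by simp [γ]
  have h5 : HasDerivAt (g ∘ γ) (fderiv ℝ g p u) 0 := by
    have hg' : HasFDerivAt g (fderiv ℝ g p) (γ 0) := by rw [hγ0]; exact hg.hasFDerivAt
    exact hg'.comp_hasDerivAt 0 hγ
  have h6 : g ∘ γ = fun _ => 0 := by
    funext t
    exact h0 _ (hnorm t)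
  rw [h6] at h5
  exact (h5.unique (hasDerivAt_const 0 0))

/-- The tangential part. -/
noncomputable def tp (p w : E4) : E4 := w - ⟪w, p⟫ • p

theorem tp_add (p v w : E4) : tp p (v + w) = tp p v + tp p w := by
  unfold tp; rw [inner_add_left, add_smul]; abel
theorem tp_sub (p v w : E4) : tp p (v - w) = tp p v - tp p w := by
  unfold tp; rw [inner_sub_left, sub_smul]; abel
theorem tp_smul (p : E4) (c : ℝ) (w : E4) : tp p (c • w) = c • tp p w := by
  unfold tp; rw [real_inner_smul_left, mul_smul, smul_sub]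
theorem tp_of_tangent (p w : E4) (h : ⟪w, p⟫ = 0) : tp p w = w := by
  unfold tp; rw [h, zero_smul, sub_zero]
theorem tp_tangent (p w : E4) (hp : ‖p‖ = 1) : ⟪tp p w, p⟫ = 0 := by
  unfold tp; rw [inner_sub_left, real_inner_smul_left, inner_self4 p hp]; ring
theorem inner_tp (p w v : E4) (hv : ⟪v, p⟫ = 0) : ⟪tp p w, v⟫ = ⟪w, v⟫ := by
  unfold tp; rw [inner_sub_left, real_inner_smul_left, real_inner_comm v p, hv]; ring

/-- The Levi-Civita connection of `g_μ`, explicitly. -/
noncomputable def nabla (μ : ℝ) (V : E4 → E4) (p u : E4) : E4 :=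
  tp p (fderiv ℝ V p u + (μ - 1) • (⟪u, J0 p⟫ • J0 (V p) + ⟪V p, J0 p⟫ • J0 u))

theorem bracket_tangent {V W : E4 → E4} (hV : IsField V) (hW : IsField W) (p : E4)
    (hp : ‖p‖ = 1) : ⟪fderiv ℝ W p (V p) - fderiv ℝ V p (W p), p⟫ = 0 := by
  have key : ∀ {V W : E4 → E4}, IsField V → IsField W → ⟪fderiv ℝ W p (V p), p⟫ = - ⟪W p, V p⟫ := by
    intro V W hV hW
    have hd : HasFDerivAt (fun x => ⟪W x, x⟫) _ p :=
      ((hW.diff p).hasFDerivAt).inner ℝ (hasFDerivAt_id p)
    have h := fderiv_tangent_zero (fun x => ⟪W x, x⟫) p (V p) hd.differentiableAt hp (hV.2 p hp)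
      (fun x hx => hW.2 x hx)
    rw [hd.fderiv] at h
    simp [fderivInnerCLM_apply] at h
    linarith
  rw [inner_sub_left, key hV hW, key hW hV, real_inner_comm]
  ring

theorem isLeviCivita_nabla (μ : ℝ) : IsLeviCivita μ (nabla μ) where
  tangent V _ p u hp _ := tp_tangent p _ hp
  dir_add V _ p u v _ _ _ := by
    unfold nabla
    rw [← tp_add]
    congr 1
    rw [map_add, J0_add, inner_add_left]
    module
  dir_smul V _ p u c _ _ := by
    unfold nabla
    rw [← tp_smul]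
    congr 1
    rw [map_smul, J0_smul, real_inner_smul_left]
    module
  field_add V W hV hW p u _ _ := by
    unfold nabla
    rw [← tp_add]
    congr 1
    have h : fderiv ℝ (fun x => V x + W x) p = fderiv ℝ V p + fderiv ℝ W p :=
      fderiv_fun_add (hV.diff p) (hW.diff p)
    rw [h, J0_add, inner_add_left, add_apply]
    module
  leibniz f V hf hV p u hp _ := by
    unfold nabla
    have hfd : DifferentiableAt ℝ f p := (hf.differentiable (by simp)) p
    have h : fderiv ℝ (fun x => f x • V x) p = f p • fderiv ℝ V p + (fderiv ℝ f p).smulRight (V p) :=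
      fderiv_fun_smul hfd (hV.diff p)
    rw [h, J0_smul, real_inner_smul_left]
    have h2 : (fderiv ℝ f p u) • V p = tp p ((fderiv ℝ f p u) • V p) := by
      rw [tp_smul, tp_of_tangent _ _ (hV.2 p hp)]
    rw [h2, ← tp_smul, ← tp_add]
    congr 1
    simp only [add_apply, smul_apply, ContinuousLinearMap.smulRight_apply]
    module
  torsion_free V W hV hW p hp := by
    unfold nabla
    rw [← tp_sub, ← tp_of_tangent p _ (bracket_tangent hV hW p hp)]
    congr 1
    module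
  metric V W hV hW p u hp hu := by
    have hV' := (hV.diff p).hasFDerivAt
    have hW' := (hW.diff p).hasFDerivAt
    have hJ : HasFDerivAt J0 J0L p := J0L.hasFDerivAt
    have h1 := hV'.inner ℝ hW'
    have h2 := hV'.inner ℝ hJ
    have h3 := hW'.inner ℝ hJ
    have h4 : HasFDerivAt (fun x => gm μ x (V x) (W x)) _ p :=
      h1.add ((h2.mul h3).const_mul (μ - 1))
    rw [h4.fderiv]
    have eJ : ∀ x, J0L x = J0 x := fun _ => rfl
    simp only [add_apply, smul_apply, ContinuousLinearMap.comp_apply,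
      ContinuousLinearMap.prod_apply, fderivInnerCLM_apply, eJ, smul_eq_mul]
    unfold gm nabla
    have t1 : ∀ w, ⟪tp p w, W p⟫ = ⟪w, W p⟫ := fun w => inner_tp p w _ (hW.2 p hp)
    have t2 : ∀ w, ⟪V p, tp p w⟫ = ⟪w, V p⟫ := fun w => by
      rw [real_inner_comm]; exact inner_tp p w _ (hV.2 p hp)
    have t3 : ∀ w, ⟪tp p w, J0 p⟫ = ⟪w, J0 p⟫ := fun w => inner_tp p w _ (inner_J0_self p)
    rw [t1, t2, t3, t3]
    simp only [inner_add_left, real_inner_smul_left, inner_J0_J0, hV.2 p hp, hW.2 p hp, hu]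
    rw [real_inner_comm (fderiv ℝ W p u) (V p), real_inner_comm (J0 u) (V p),
      real_inner_comm (J0 u) (W p), inner_J0_swap (W p) (V p), real_inner_comm (J0 (V p)) (W p)]
    ring

end Pool.Agent.R731.BE
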