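import Pool.Agent.R731.BE.Energy

set_option autoImplicit false

open scoped RealInnerProductSpace ContDiff Pointwise
open MeasureTheory

namespace Pool.Agent.R731.BE

/-- Left multiplication by the unit quaternion `(1 + i + j + k) / 2`. -/
noncomputable def T (x : E4) : E4 := (2⁻¹ : ℝ) • (x + J0 x + J1 x + J2 x)

theorem T_norm (x : E4) : ‖T x‖ = ‖x‖ := by
  have h : ‖T x‖ ^ 2 = ‖x‖ ^ 2 := by
    rw [← real_inner_self_eq_norm_sq, ← real_inner_self_eq_norm_sq, inner4, inner4]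
    simp [T, J0, J1, J2]
    ring
  exact (sq_eq_sq₀ (norm_nonneg _) (norm_nonneg _)).1 h

/-- `T` as a linear isometry. -/
noncomputable def Tli : E4 →ₗᵢ[ℝ] E4 where
  toFun := T
  map_add' x y := by unfold T; rw [J0_add, J1_add, J2_add]; module
  map_smul' c x := by unfold T; rw [J0_smul, J1_smul, J2_smul, RingHom.id_apply]; module
  norm_map' x := T_norm x

/-- `T` as a linear isometric automorphism. -/
noncomputable def Tle : E4 ≃ₗᵢ[ℝ] E4 := Tli.toLinearIsometryEquiv rfl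

theorem Tle_apply (x : E4) : Tle x = T x := rfl

theorem n0_T (x : E4) : n0 (T x) = n2 x := by
  rw [n0, n2, inner4, inner4]; simp [T, R, J0, J1, J2]; ring
theorem n2_T (x : E4) : n2 (T x) = n1 x := by
  rw [n2, n1, inner4, inner4]; simp [T, R, J0, J1, J2]; ring

abbrev Sp : Type := Metric.sphere (0 : E4) 1

/-- The action of `T` on the sphere. -/
noncomputable def Ts (p : Sp) : Sp := ⟨T p, by
  rw [mem_sphere_zero_iff_norm, T_norm]; exact mem_sphere_zero_iff_norm.1 p.2⟩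

theorem continuous_Ts : Continuous Ts := by
  refine Continuous.subtype_mk ?_ _
  exact Tli.continuous.comp continuous_subtype_val

theorem toSphere_Ts (s : Set Sp) (hs : MeasurableSet s) :
    (volume : Measure E4).toSphere (Ts ⁻¹' s) = (volume : Measure E4).toSphere s := by
  rw [Measure.toSphere_apply' _ (continuous_Ts.measurable hs), Measure.toSphere_apply' _ hs]
  congr 1
  have h : (Set.Ioo (0 : ℝ) 1 • ((↑) '' (Ts ⁻¹' s)) : Set E4) =
      Tle ⁻¹' (Set.Ioo (0 : ℝ) 1 • ((↑) '' s)) := by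
    ext x
    simp only [Set.mem_smul, Set.mem_preimage, Set.mem_image]
    constructor
    · rintro ⟨r, hr, _, ⟨y, hy, rfl⟩, rfl⟩
      exact ⟨r, hr, _, ⟨Ts y, hy, rfl⟩, by rw [map_smul]; rfl⟩
    · rintro ⟨r, hr, _, ⟨y, hy, rfl⟩, h⟩
      have hy1 : ‖(Tle.symm (y : E4))‖ = 1 := by
        rw [LinearIsometryEquiv.norm_map]; exact mem_sphere_zero_iff_norm.1 y.2
      refine ⟨r, hr, _, ⟨⟨Tle.symm (y : E4), mem_sphere_zero_iff_norm.2 hy1⟩, ?_, rfl⟩, ?_⟩
      · have : Ts ⟨Tle.symm (y : E4), mem_sphere_zero_iff_norm.2 hy1⟩ = y := by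
          apply Subtype.ext
          change Tle (Tle.symm (y : E4)) = y
          simp
        change Ts ⟨Tle.symm (y : E4), mem_sphere_zero_iff_norm.2 hy1⟩ ∈ s
        rw [this]; exact hy
      · apply Tle.injective
        rw [map_smul]
        change r • Tle (Tle.symm (y : E4)) = Tle x
        rw [LinearIsometryEquiv.apply_symm_apply]
        exact h
  rw [h]
  exact (Tle.measurePreserving.measure_preimage_equiv (f := Tle.toMeasurableEquiv) _)

theorem mp_Ts (μ : ℝ) : MeasurePreserving Ts (volMeasure μ) (volMeasure μ) := by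
  refine ⟨continuous_Ts.measurable, ?_⟩
  ext s hs
  rw [Measure.map_apply continuous_Ts.measurable hs]
  unfold volMeasure
  rw [Measure.smul_apply, Measure.smul_apply, toSphere_Ts s hs]

instance (μ : ℝ) : IsFiniteMeasure (volMeasure μ) := by
  unfold volMeasure
  exact Measure.smul_finite _ ENNReal.ofReal_ne_top

theorem vol_pos (μ : ℝ) (hμ : 0 < μ) : 0 < vol μ := by
  unfold vol
  refine ENNReal.toReal_pos ?_ (measure_ne_top _ _)
  unfold volMeasure
  rw [Measure.smul_apply, smul_eq_mul]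
  refine mul_ne_zero ?_ ?_
  · exact (ENNReal.ofReal_pos.2 (Real.sqrt_pos.2 hμ)).ne'
  · rw [Measure.measure_univ_ne_zero]
    exact Measure.toSphere_ne_zero _

theorem continuous_n0 : Continuous (fun p : Sp => n0 p) :=
  contDiff_n0.continuous.comp continuous_subtype_val
theorem continuous_n1 : Continuous (fun p : Sp => n1 p) :=
  contDiff_n1.continuous.comp continuous_subtype_val
theorem continuous_n2 : Continuous (fun p : Sp => n2 p) :=
  contDiff_n2.continuous.comp continuous_subtype_val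

theorem integrable_of_cont (μ : ℝ) (f : Sp → ℝ) (hf : Continuous f) :
    Integrable f (volMeasure μ) := by
  have := hf.integrable_of_hasCompactSupport (μ := volMeasure μ)
    (HasCompactSupport.of_compactSpace f)
  exact this

/-- The mean value of `n0²` is `1/3`. -/
theorem integral_n0_sq (μ : ℝ) : ∫ p : Sp, n0 p ^ 2 ∂(volMeasure μ) = vol μ / 3 := by
  have hinv : ∀ f : Sp → ℝ, Continuous f →
      ∫ p : Sp, f (Ts p) ∂(volMeasure μ) = ∫ p : Sp, f p ∂(volMeasure μ) := by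
    intro f hf
    have h := integral_map (μ := volMeasure μ) (continuous_Ts.measurable.aemeasurable)
      (f := f) (hf.aestronglyMeasurable)
    rw [← h, (mp_Ts μ).map_eq]
  have h2 : ∫ p : Sp, n2 p ^ 2 ∂(volMeasure μ) = ∫ p : Sp, n0 p ^ 2 ∂(volMeasure μ) := by
    rw [← hinv (fun p : Sp => n0 p ^ 2) (continuous_n0.pow 2)]
    refine integral_congr_ae (Filter.Eventually.of_forall fun p => ?_)
    change n2 p ^ 2 = n0 (T p) ^ 2
    rw [n0_T]
  have h1 : ∫ p : Sp, n1 p ^ 2 ∂(volMeasure μ) = ∫ p : Sp, n2 p ^ 2 ∂(volMeasure μ) := by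
    rw [← hinv (fun p : Sp => n2 p ^ 2) (continuous_n2.pow 2)]
    refine integral_congr_ae (Filter.Eventually.of_forall fun p => ?_)
    change n1 p ^ 2 = n2 (T p) ^ 2
    rw [n2_T]
  have h3 : ∫ p : Sp, (n0 p ^ 2 + n1 p ^ 2 + n2 p ^ 2) ∂(volMeasure μ) = vol μ := by
    have : ∀ p : Sp, n0 p ^ 2 + n1 p ^ 2 + n2 p ^ 2 = 1 := fun p =>
      n_sq p (mem_sphere_zero_iff_norm.1 p.2)
    simp only [this]
    rw [integral_const, smul_eq_mul, mul_one]
    rfl
  have i0 : Integrable (fun p : Sp => n0 p ^ 2) (volMeasure μ) :=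
    integrable_of_cont μ _ (continuous_n0.pow 2)
  have i1 : Integrable (fun p : Sp => n1 p ^ 2) (volMeasure μ) :=
    integrable_of_cont μ _ (continuous_n1.pow 2)
  have i2 : Integrable (fun p : Sp => n2 p ^ 2) (volMeasure μ) :=
    integrable_of_cont μ _ (continuous_n2.pow 2)
  have h4 : ∫ p : Sp, (n0 p ^ 2 + n1 p ^ 2 + n2 p ^ 2) ∂(volMeasure μ) =
      ∫ p : Sp, n0 p ^ 2 ∂(volMeasure μ) + ∫ p : Sp, n1 p ^ 2 ∂(volMeasure μ) +
        ∫ p : Sp, n2 p ^ 2 ∂(volMeasure μ) := by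
    have i01 : Integrable (fun p : Sp => n0 p ^ 2 + n1 p ^ 2) (volMeasure μ) := i0.add i1
    rw [← integral_add i0 i1, ← integral_add i01 i2]
  rw [h4, h1, h2] at h3
  linarith

theorem energy_Vμ (μ : ℝ) (hμ : 1 < μ) (D : (E4 → E4) → E4 → E4 → E4) (hD : IsLeviCivita μ D) :
    energy μ D (Vμ μ) = (3 / 2 + μ / 3 + 2 / 3 * (√μ - 2) ^ 2) * vol μ := by
  unfold energy
  have h : ∀ p : Sp, nablaSq μ D (Vμ μ) p =
      (μ + (√μ - 2) ^ 2) + ((√μ - 2) ^ 2 - μ) * n0 p ^ 2 := fun p => by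
    rw [nablaSq_Vμ μ hμ D hD p (mem_sphere_zero_iff_norm.1 p.2)]; ring
  simp only [h]
  have i0 : Integrable (fun p : Sp => n0 p ^ 2) (volMeasure μ) :=
    integrable_of_cont μ _ (continuous_n0.pow 2)
  rw [integral_add (integrable_const _) (i0.const_mul _), integral_const, integral_const_mul,
    integral_n0_sq, smul_eq_mul]
  change 3 / 2 * vol μ + 1 / 2 * (vol μ * _ + _) = _
  ring

theorem energy_X (μ : ℝ) (hμ : 1 < μ) (D : (E4 → E4) → E4 → E4 → E4) (hD : IsLeviCivita μ D)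
    (a b : ℝ) (hab : a ^ 2 + b ^ 2 = 1) :
    energy μ D (fun x => a • J1 x + b • J2 x) = (3 / 2 + μ + 2 * ((1 - μ) / μ)) * vol μ := by
  unfold energy
  have h : ∀ p : Sp, nablaSq μ D (fun x => a • J1 x + b • J2 x) p = 2 * μ - 4 + 4 / μ := fun p =>
    nablaSq_X μ hμ D hD a b hab p (mem_sphere_zero_iff_norm.1 p.2)
  simp only [h]
  rw [integral_const, smul_eq_mul]
  change 3 / 2 * vol μ + 1 / 2 * (vol μ * _) = _
  have : μ ≠ 0 := by linarith
  field_simp
  ring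

theorem compare (μ : ℝ) (hμ : (33 + 3 * √57) / 32 < μ) :
    1 < μ ∧ 3 / 2 + μ / 3 + 2 / 3 * (√μ - 2) ^ 2 < 3 / 2 + μ + 2 * ((1 - μ) / μ) := by
  have h57 : (√57 : ℝ) ^ 2 = 57 := Real.sq_sqrt (by norm_num)
  have h57' : (0 : ℝ) ≤ √57 := Real.sqrt_nonneg _
  have hμ1 : 1 < μ := by linarith
  refine ⟨hμ1, ?_⟩
  obtain ⟨s, hs0, hs⟩ : ∃ s : ℝ, 0 < s ∧ μ = s ^ 2 :=
    ⟨√μ, Real.sqrt_pos.2 (by linarith), (Real.sq_sqrt (by linarith)).symm⟩
  subst hs
  rw [Real.sqrt_sq hs0.le]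
  have hs1 : (3 + √57) / 8 < s := by
    have h1 : ((3 + √57) / 8) ^ 2 < s ^ 2 := by
      have : ((3 + √57) / 8) ^ 2 = (33 + 3 * √57) / 32 := by
        rw [div_pow, add_sq, h57]; ring
      rw [this]; exact hμ
    exact lt_of_pow_lt_pow_left₀ 2 hs0.le h1
  have h7 : (7 : ℝ) < √57 := by
    rw [Real.lt_sqrt (by norm_num)]; norm_num
  have hs2 : 1 < s := by linarith
  have hq : 0 < 4 * s ^ 2 - 3 * s - 3 := by
    have h3 : 0 < (8 * s - 3) ^ 2 - 57 := by
      have h4 : √57 < 8 * s - 3 := by linarith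
      have h5 : √57 ^ 2 < (8 * s - 3) ^ 2 := by
        apply pow_lt_pow_left₀ h4 h57' (by norm_num)
      rw [h57] at h5; linarith
    nlinarith
  have hpos : 0 < (s - 1) * (4 * s ^ 2 - 3 * s - 3) := mul_pos (by linarith) hq
  have e : 3 / 2 + s ^ 2 + 2 * ((1 - s ^ 2) / s ^ 2) - (3 / 2 + s ^ 2 / 3 + 2 / 3 * (s - 2) ^ 2) =
      2 / 3 * ((s - 1) * (4 * s ^ 2 - 3 * s - 3)) / s ^ 2 := by
    field_simp
    ring
  have : 0 < 2 / 3 * ((s - 1) * (4 * s ^ 2 - 3 * s - 3)) / s ^ 2 := by positivity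
  linarith

theorem main (μ : ℝ) (hμ : (33 + 3 * √57) / 32 < μ) :
    1 < μ ∧ (∃ D, IsLeviCivita μ D) ∧ ∃ V, IsUnitField μ V ∧ ∀ D, IsLeviCivita μ D →
      energy μ D V < (3 / 2 + μ + 2 * ((1 - μ) / μ)) * vol μ ∧
      ∀ a b : ℝ, a ^ 2 + b ^ 2 = 1 → energy μ D V < energy μ D (fun x => a • J1 x + b • J2 x) := by
  obtain ⟨hμ1, hc⟩ := compare μ hμ
  refine ⟨hμ1, ⟨nabla μ, isLeviCivita_nabla μ⟩, Vμ μ, isUnitField_Vμ μ hμ1, fun D hD => ?_⟩
  have hv := vol_pos μ (by linarith)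
  have h1 : energy μ D (Vμ μ) < (3 / 2 + μ + 2 * ((1 - μ) / μ)) * vol μ := by
    rw [energy_Vμ μ hμ1 D hD]
    exact mul_lt_mul_of_pos_right hc hv
  refine ⟨h1, fun a b hab => ?_⟩
  rw [energy_X μ hμ1 D hD a b hab]
  exact h1

end Pool.Agent.R731.BE
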