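import Pool.Agent.R731.BE.LC

set_option autoImplicit false

open scoped RealInnerProductSpace ContDiff
open MeasureTheory

namespace Pool.Agent.R731.BE

theorem gm_comm (μ : ℝ) (p u v : E4) : gm μ p u v = gm μ p v u := by
  unfold gm; rw [real_inner_comm]; ring
theorem gm_add_left (μ : ℝ) (p u v w : E4) : gm μ p (u + v) w = gm μ p u w + gm μ p v w := by
  unfold gm; rw [inner_add_left, inner_add_left]; ring
theorem gm_sub_left (μ : ℝ) (p u v w : E4) : gm μ p (u - v) w = gm μ p u w - gm μ p v w := by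
  unfold gm; rw [inner_sub_left, inner_sub_left]; ring
theorem gm_smul_left (μ : ℝ) (p u w : E4) (c : ℝ) : gm μ p (c • u) w = c * gm μ p u w := by
  unfold gm; rw [real_inner_smul_left, real_inner_smul_left]; ring
theorem gm_add_right (μ : ℝ) (p u v w : E4) : gm μ p u (v + w) = gm μ p u v + gm μ p u w := by
  rw [gm_comm, gm_add_left, gm_comm, gm_comm μ p w]
theorem gm_smul_right (μ : ℝ) (p u w : E4) (c : ℝ) : gm μ p u (c • w) = c * gm μ p u w := by
  rw [gm_comm, gm_smul_left, gm_comm]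

theorem gm_self_pos (μ : ℝ) (hμ : 1 < μ) (p u : E4) (h : gm μ p u u = 0) : u = 0 := by
  unfold gm at h
  have h1 : 0 ≤ ⟪u, u⟫ := real_inner_self_nonneg
  have h2 : 0 ≤ (μ - 1) * (⟪u, J0 p⟫ * ⟪u, J0 p⟫) :=
    mul_nonneg (by linarith) (mul_self_nonneg _)
  exact inner_self_eq_zero.1 (le_antisymm (by linarith) h1)

/-- Decomposition of a tangent vector in the frame. -/
theorem frame_decomp (p w : E4) (hp : ‖p‖ = 1) (hw : ⟪w, p⟫ = 0) :
    w = ⟪w, J0 p⟫ • J0 p + ⟪w, J1 p⟫ • J1 p + ⟪w, J2 p⟫ • J2 p := by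
  have hn := normsq4 p hp
  rw [inner4] at hw
  simp only [inner4]
  ext i
  fin_cases i <;> simp [J0, J1, J2]
  · linear_combination (p 0) * hw - (w 0) * hn
  · linear_combination (p 1) * hw - (w 1) * hn
  · linear_combination (p 2) * hw - (w 2) * hn
  · linear_combination (p 3) * hw - (w 3) * hn

/-- Every tangent vector extends to a field. -/
theorem exists_field (p w : E4) (hp : ‖p‖ = 1) (hw : ⟪w, p⟫ = 0) :
    ∃ V, IsField V ∧ V p = w := by
  refine ⟨fun x => (⟪w, J0 p⟫ • J0 x + ⟪w, J1 p⟫ • J1 x) + ⟪w, J2 p⟫ • J2 x, ?_, ?_⟩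
  · exact ((isField_J0.smul contDiff_const).add (isField_J1.smul contDiff_const)).add
      (isField_J2.smul contDiff_const)
  · exact (frame_decomp p w hp hw).symm

/-- The Levi-Civita connection is unique. -/
theorem lc_unique (μ : ℝ) (hμ : 1 < μ) (D D' : (E4 → E4) → E4 → E4 → E4)
    (hD : IsLeviCivita μ D) (hD' : IsLeviCivita μ D') (V : E4 → E4) (hV : IsField V) (p u : E4)
    (hp : ‖p‖ = 1) (hu : ⟪u, p⟫ = 0) : D V p u = D' V p u := by
  -- `A U V = D V p (U p) - D' V p (U p)`
  let A : (E4 → E4) → (E4 → E4) → E4 := fun U V => D V p (U p) - D' V p (U p)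
  have hsym : ∀ U V, IsField U → IsField V → A U V = A V U := by
    intro U V hU hV
    have h1 := hD.torsion_free U V hU hV p hp
    have h2 := hD'.torsion_free U V hU hV p hp
    change D V p (U p) - D' V p (U p) = D U p (V p) - D' U p (V p)
    have h3 : D V p (U p) - D U p (V p) = D' V p (U p) - D' U p (V p) := h1.trans h2.symm
    rw [sub_eq_sub_iff_add_eq_add] at h3 ⊢
    rw [h3]; abel
  have hskew : ∀ U V W, IsField U → IsField V → IsField W →
      gm μ p (A U V) (W p) = - gm μ p (A U W) (V p) := by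
    intro U V W hU hV hW
    have h1 := hD.metric V W hV hW p (U p) hp (hU.2 p hp)
    have h2 := hD'.metric V W hV hW p (U p) hp (hU.2 p hp)
    change gm μ p (D V p (U p) - D' V p (U p)) (W p) = - gm μ p (D W p (U p) - D' W p (U p)) (V p)
    rw [gm_sub_left, gm_sub_left, gm_comm μ p (D W p (U p)), gm_comm μ p (D' W p (U p))]
    linarith
  have hzero : ∀ U V W, IsField U → IsField V → IsField W → gm μ p (A U V) (W p) = 0 := by
    intro U V W hU hV hW
    have e1 := hskew U V W hU hV hW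
    rw [hsym U W hU hW, hskew W U V hW hU hV, hsym W V hW hV, hskew V W U hV hW hU,
      hsym V U hV hU] at e1
    linarith
  obtain ⟨U, hU, hUp⟩ := exists_field p u hp hu
  have htan : ⟪A U V, p⟫ = 0 := by
    change ⟪D V p (U p) - D' V p (U p), p⟫ = 0
    rw [inner_sub_left, hD.tangent V hV p _ hp (hU.2 p hp), hD'.tangent V hV p _ hp (hU.2 p hp),
      sub_zero]
  obtain ⟨W, hW, hWp⟩ := exists_field p (A U V) hp htan
  have h := hzero U V W hU hV hW
  rw [hWp] at h
  have h0 := gm_self_pos μ hμ p _ h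
  have h1 : D V p (U p) - D' V p (U p) = 0 := h0
  rw [hUp] at h1
  exact sub_eq_zero.1 h1

end Pool.Agent.R731.BE
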